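import Pool.Agent.W617.KB.Fin

/-!
# The breadth of the Kauffman bracket of alternating diagrams in `#_g (S¹ × S²)`

The definitions are in `Pool.Agent.W617.KB.Defs` and (diagrams and labellings) in the starting file
`Pool.Agent.H560R3.TG.Defs`. A summary:

* A diagram in the disk with holes `S_g` is a word in the pieces `birth i` (a maximum), `death i` (a
  minimum), `cr i b` (a crossing) and `hole i` (a hole), read from top to bottom; `i` is the number
  of strands on the left; `WF 0 D 0`: the pieces fit together, no strands at the top and at the
  bottom. `crossings D` is the number `n` of the crossings, `holes D` is `g`.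
* `Admissible D`: `D` is such a diagram, it has a strand, it is connected, alternating, not contained
  in a disk with fewer holes (`Filling`: the outer boundary circle and the holes lie in pairwise
  different regions), its link is trivial in `H_1(M_g; Z/2)`, and no crossing is `Excluded`.
* `Excluded u i b v`: some embedded disk in `S_g` has a boundary which passes through the crossing
  and does not meet the diagram elsewhere.
* `TwoExternal`: the crossing is adjacent to two distinct external regions; `count TwoExternal D` is
  the number `k(D)` of the problem. `ExternalTwice`: two corners of the crossing lie in external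
  regions, in two distinct ones or in the same. `External` and `SameRegion` are expressed by
  labellings of the regions.
* `IsBracket D c`: in the skein module of `M_g` (the free `ℚ(A)`-vector space on the diagrams modulo
  `Rels`: framed isotopies, slides over the 2-handles of `M_g`, the Kauffman relation and the value
  of the circle) the diagram `D` is `c` times the empty link, i.e. `c` is the bracket of `D`.
* `br c`: the breadth of a rational function, `br (f / h) = B(f) - B(h)`. (For `g ≥ 2` the brackets
  are not Laurent polynomials in general.)

The theorem says: for all admissible diagrams (all `g ≥ 0`) the bracket exists, is unique, is not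
zero, and its breadth is `4 n + 4 - 4 g - 4 k'`, where `k'` is the number of the crossings with two
external corners. The formula of the problem, with the number `k` of the crossings which are
adjacent to two distinct external regions, is false: in the diagram `D0` (`g = 2`, `n = 3`; two
closed 2-braids with one crossing each around the two holes, joined at a crossing which touches the
outer region from two sides) one has `k = 2`, `k' = 3` and the breadth is `-4`, not `0`.
-/

set_option autoImplicit false

namespace Pool.Agent.Results.MP_70b928_gt.BreadthFormula

open Pool.Agent.H560R3.TG Pool.Agent.W617.KB

/-- The breadth of the bracket of every admissible diagram, and the example in which the formula of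
the problem fails. -/
theorem result :
    (∀ D : List Piece, Admissible D →
      ∃ c : RatFunc ℚ, IsBracket D c ∧ (∀ c' : RatFunc ℚ, IsBracket D c' → c' = c) ∧ c ≠ 0 ∧
        br c = 4 * (crossings D : ℤ) + 4 - 4 * holes D - 4 * count ExternalTwice D) ∧
    (∃ D : List Piece, Admissible D ∧ holes D = 2 ∧ crossings D = 3 ∧
      count TwoExternal D = 2 ∧ count ExternalTwice D = 3 ∧
      ∀ c : RatFunc ℚ, IsBracket D c →
        br c = -4 ∧ br c ≠ 4 * (crossings D : ℤ) + 4 - 4 * holes D - 4 * count TwoExternal D) := by
  refine ⟨fun D h => formula h, D0, adm0, rfl, rfl, Pool.Agent.W398.KB.ex3.1,
    Pool.Agent.W398.KB.ex3.2, ?_⟩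
  intro c hc
  obtain ⟨c', -, h2, -, h4⟩ := formula adm0
  have e := h2 c hc
  subst e
  have e1 : holes D0 = 2 := rfl
  have e2 : crossings D0 = 3 := rfl
  rw [e1, e2, Pool.Agent.W398.KB.ex3.2] at h4
  rw [e1, e2, Pool.Agent.W398.KB.ex3.1, h4]
  constructor <;> norm_num

end Pool.Agent.Results.MP_70b928_gt.BreadthFormula
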